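import Pool.Agent.H.MP_e5a79a_an.A

open Set Filter Topology Real Pool.Agent.H.MP_e5a79a_an

namespace Pool.Agent.Results.MP_e5a79a_an.Pendulum

theorem result : ∃ H : ℝ → ℝ → ℝ, ContDiff ℝ ⊤ (Function.uncurry H) ∧
    (∀ x p, H (x + 1) p = H x p) ∧ (∀ x p, 0 < deriv (deriv (H x)) p) ∧
    (∀ R : ℝ, ∃ M : ℝ, ∀ x p, R * |p| - M ≤ H x p) ∧
    ∃ (α₀ : ℝ) (u : ℝ → ℝ), IsVisc H α₀ u ∧ Differentiable ℝ u ∧
      (∀ k w, IsVisc H k w → k = α₀ ∧ ∃ C, ∀ x, w x = u x + C) ∧ Aubry H α₀ = univ ∧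
      ∃ (ε : ℝ) (c : ℕ → ℝ), 0 < ε ∧ Tendsto c atTop (𝓝 0) ∧ ∀ k,
        (∃ α v, IsVisc (fun x p => H x (p - c k)) α v) ∧
        ∀ α v, IsVisc (fun x p => H x (p - c k)) α v → Differentiable ℝ v ∧
          ∃ x ∈ Aubry (fun x p => H x (p - c k)) α, ∃ y ∈ Aubry (fun x p => H x (p - c k)) α,
            (x : UnitAddCircle) ≠ y ∧ ε * dist (x : UnitAddCircle) y ≤
              |(deriv v x - deriv u x) - (deriv v y - deriv u y)| := by
  have hr : ∀ k : ℕ, 0 < 1 / ((k : ℝ) + 1) ∧ 1 / ((k : ℝ) + 1) ≤ 1 := fun k =>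
    ⟨by positivity, by rw [div_le_one (by positivity)]; linarith [k.cast_nonneg (α := ℝ)]⟩
  refine ⟨Ham (mm 0), by unfold Ham Function.uncurry; fun_prop, fun x p => by
    rw [Ham, Ham, sin_per], fun x p => ?_, fun R => ⟨R ^ 2 / 2 + |R| * |mm 0| + 1, fun x p => ?_⟩,
    0 / 2, vv 0, vv_visc le_rfl, fun x => (vv_deriv 0 x).differentiableAt,
    fun k w h => visc_unique le_rfl h, aubry le_rfl, 1,
    fun k => mm 0 - mm ((1 / ((k : ℝ) + 1)) ^ 2), one_pos, ?_, fun k => ?_⟩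
  · have h1 : deriv (Ham (mm 0) x) = fun p => p + mm 0 := funext fun p => by
      have := (((((hasDerivAt_id p).add_const (mm 0)).pow 2).div_const 2).sub_const
        (sin (π * x) ^ 2 / 2)).deriv
      refine Eq.trans this ?_
      simp
    rw [h1]
    simp
  · have h1 : |p| ≤ |p + mm 0| + |mm 0| := by simpa using abs_sub (p + mm 0) (mm 0)
    have h2 := mul_le_mul_of_nonneg_left h1 (abs_nonneg R)
    have h3 := mul_le_mul_of_nonneg_right (le_abs_self R) (abs_nonneg p)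
    rw [Ham, ← sq_abs (p + mm 0), ← sq_abs R]
    nlinarith [sq_nonneg (|R| - |p + mm 0|), sin_sq_le_one (π * x)]
  · exact squeeze_zero_norm (fun k => mm_close (hr k).1.le) tendsto_one_div_add_atTop_nhds_zero_nat
  · obtain ⟨h0, h1⟩ := hr k
    beta_reduce
    generalize 1 / ((k : ℝ) + 1) = r at h0 h1
    have he : (fun x p => Ham (mm 0) x (p - (mm 0 - mm (r ^ 2)))) = Ham (mm (r ^ 2)) := by
      funext x p
      simp only [Ham]
      ring
    rw [he]
    refine ⟨⟨_, _, vv_visc (sq_nonneg r)⟩, fun α v h => ?_⟩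
    obtain ⟨rfl, C, hC⟩ := visc_unique (sq_nonneg r) h
    obtain rfl : v = fun x => vv (r ^ 2) x + C := funext hC
    have hd : ∀ x, HasDerivAt (fun x => vv (r ^ 2) x + C) _ x := fun x =>
      (vv_deriv _ x).add_const C
    have hdist : dist ((0 : ℝ) : UnitAddCircle) ((r / 4 : ℝ) : UnitAddCircle) = r / 4 := by
      rw [dist_comm, dist_eq_norm, QuotientAddGroup.mk_zero, sub_zero,
        (AddCircle.norm_coe_eq_abs_iff 1 one_ne_zero).2, abs_of_pos (by positivity)]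
      rw [abs_of_pos (by positivity), abs_one]
      linarith
    refine ⟨fun x => (hd x).differentiableAt, 0, by rw [aubry (sq_nonneg r)]; trivial, r / 4,
      by rw [aubry (sq_nonneg r)]; trivial, dist_pos.1 (by rw [hdist]; positivity), ?_⟩
    rw [hdist, (hd _).deriv, (hd _).deriv, deriv_vv]
    refine le_trans ?_ (le_abs_self _)
    linarith [gap h0 h1]

end Pool.Agent.Results.MP_e5a79a_an.Pendulum
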